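import Pool.Agent.Helper13.R6.SheetA

set_option autoImplicit false

namespace Pool.Helper13.R6

namespace PR1x

theorem nv_le {d : Fin 4 → ℝ} {v : V4} {U : ℝ} (h : ∀ i, d i * |(v i : ℝ)| ≤ U) : nv d v ≤ U := by
  unfold nv
  rw [Finset.sup'_le_iff]
  intro i _
  exact h i

theorem le_nv (d : Fin 4 → ℝ) (v : V4) (i : Fin 4) : d i * |(v i : ℝ)| ≤ nv d v := by
  unfold nv
  exact Finset.le_sup' (fun i => d i * |(v i : ℝ)|) (Finset.mem_univ i)

theorem nv_nonneg {d : Fin 4 → ℝ} (hd : ∀ i, 0 < d i) (v : V4) : 0 ≤ nv d v :=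
  le_trans (mul_nonneg (hd 0).le (abs_nonneg _)) (le_nv d v 0)

theorem nv_add_smul {d : Fin 4 → ℝ} (hd : ∀ i, 0 < d i) (t s : V4) (m : ℤ) :
    nv d (t + m • s) ≤ nv d t + |(m : ℝ)| * nv d s := by
  refine nv_le fun i => ?_
  have h1 := le_nv d t i
  have h2 := le_nv d s i
  have h3 : |(((t + m • s) i : ℤ) : ℝ)| ≤ |(t i : ℝ)| + |(m : ℝ)| * |(s i : ℝ)| := by
    have : (((t + m • s) i : ℤ) : ℝ) = (t i : ℝ) + (m : ℝ) * (s i : ℝ) := by
      simp
    rw [this, ← abs_mul]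
    exact abs_add_le _ _
  calc d i * |(((t + m • s) i : ℤ) : ℝ)| ≤ d i * (|(t i : ℝ)| + |(m : ℝ)| * |(s i : ℝ)|) :=
        mul_le_mul_of_nonneg_left h3 (hd i).le
    _ = d i * |(t i : ℝ)| + |(m : ℝ)| * (d i * |(s i : ℝ)|) := by ring
    _ ≤ nv d t + |(m : ℝ)| * nv d s :=
        add_le_add h1 (mul_le_mul_of_nonneg_left h2 (abs_nonneg _))

theorem wdg_add_smul (s t : V4) (m : ℤ) : wdg s (t + m • s) = wdg s t := by
  funext i j
  simp only [wdg, Pi.add_apply, Pi.smul_apply, smul_eq_mul]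
  ring

theorem w3_wdg (s t : V4) (m : ℤ) (i j k : Fin 4) : w3 (wdg s t) (t + m • s) i j k = 0 := by
  simp only [w3, wdg, Pi.add_apply, Pi.smul_apply, smul_eq_mul]
  ring

theorem dvd_w3 {D : ℕ} {x x' : A4} (hr : Rel D x x') (v : V4) (i j k : Fin 4)
    (h0 : w3 x' v i j k = 0) : (D : ℤ) ∣ w3 x v i j k := by
  obtain ⟨κ, hκ, hk⟩ := hr
  have h1 : (D : ℤ) ∣ w3 x' v i j k - κ * w3 x v i j k := by
    have : w3 x' v i j k - κ * w3 x v i j k = (x' i j - κ * x i j) * v k -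
        (x' i k - κ * x i k) * v j + (x' j k - κ * x j k) * v i := by
      simp only [w3]; ring
    rw [this]
    exact dvd_add (dvd_sub (Dvd.dvd.mul_right (hk i j) _) (Dvd.dvd.mul_right (hk i k) _))
      (Dvd.dvd.mul_right (hk j k) _)
  rw [h0, zero_sub, dvd_neg] at h1
  exact hκ.symm.dvd_of_dvd_mul_left h1

theorem card_Icc_ge {M : ℝ} (hM : 0 ≤ M) : M ≤ ((Finset.Icc (-⌊M⌋) ⌊M⌋).card : ℝ) := by
  have h0 : 0 ≤ ⌊M⌋ := Int.floor_nonneg.mpr hM
  have h1 : ((Finset.Icc (-⌊M⌋) ⌊M⌋).card : ℤ) = ⌊M⌋ + 1 - (-⌊M⌋) := by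
    rw [Int.card_Icc, Int.toNat_of_nonneg (by omega)]
  have h2 : ((Finset.Icc (-⌊M⌋) ⌊M⌋).card : ℝ) = (⌊M⌋ : ℝ) + 1 - (-(⌊M⌋ : ℝ)) := by
    exact_mod_cast h1
  rw [h2]
  have h3 := Int.lt_floor_add_one M
  have h4 : (0 : ℝ) ≤ (⌊M⌋ : ℝ) := by exact_mod_cast h0
  linarith

theorem ineq1 {a b X : ℝ} (ha : 0 < a) (hab : a ≤ b) (hb : b ^ 2 ≤ 2 * X) (hX : 0 < X) :
    (1 + 3 * X / a / b) * (1 + 3 * X / a * b / X) ≤ 20 * (X / a ^ 2) := by
  have hb0 : 0 < b := lt_of_lt_of_le ha hab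
  have e1 : (1 + 3 * X / a / b) * (1 + 3 * X / a * b / X) =
      1 + 3 * (X / (a * b)) + 3 * (b / a) + 9 * (X / a ^ 2) := by
    field_simp
    ring
  have i1 : 1 ≤ 2 * (X / a ^ 2) := by
    rw [← mul_div_assoc, le_div_iff₀ (by positivity)]
    nlinarith
  have i2 : X / (a * b) ≤ X / a ^ 2 := by
    apply div_le_div_of_nonneg_left hX.le (by positivity)
    nlinarith
  have i3 : b / a ≤ 2 * (X / a ^ 2) := by
    rw [← mul_div_assoc, div_le_div_iff₀ ha (by positivity)]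
    have : b * a ≤ 2 * X := by nlinarith
    nlinarith
  rw [e1]
  linarith

theorem ineq2 {a b X R τ : ℝ} (ha : 0 < a) (hab : a ≤ b) (hb : b ^ 2 ≤ 2 * X) (hX : 0 < X)
    (hR : 1 ≤ R) (hτ : 0 < τ) (hτ2 : τ ^ 2 ≤ 2 * X) :
    (1 + R * (3 * X / a) / τ) * (1 + R * (3 * X / a) * τ / X) ≤
      11 * (R * X / (a * τ) + R ^ 2 * X / a ^ 2) := by
  have e1 : (1 + R * (3 * X / a) / τ) * (1 + R * (3 * X / a) * τ / X) =
      1 + 3 * (R * X / (a * τ)) + 3 * (R * τ / a) + 9 * (R ^ 2 * X / a ^ 2) := by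
    field_simp
    ring
  have i1 : 1 ≤ 2 * (R ^ 2 * X / a ^ 2) := by
    rw [← mul_div_assoc, le_div_iff₀ (by positivity)]
    have h1 : a ^ 2 ≤ 2 * X := by nlinarith
    have h2 : 1 ≤ R ^ 2 := by nlinarith
    nlinarith
  have i3 : R * τ / a ≤ 2 * (R * X / (a * τ)) := by
    rw [← mul_div_assoc, div_le_div_iff₀ ha (by positivity)]
    have h1 : R * a * τ ^ 2 ≤ R * a * (2 * X) := mul_le_mul_of_nonneg_left hτ2 (by positivity)
    nlinarith
  have p1 : 0 ≤ R * X / (a * τ) := by positivity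
  rw [e1]
  linarith

end PR1x

open PR1x in
theorem st_PR1 (hA : ST_ALG) (hL : ST_LAT) (hR : ST_RIN) : ST_PR1 := by
  obtain ⟨C, hC, hLat⟩ := hL
  refine ⟨220 * C, by positivity, ?_⟩
  intro d X R x s t h g D hd hp hR1 hX hx hst hhg hD hXD s' hs' S hS
  have hdi : ∀ i, 0 < (fun i => (d i)⁻¹) i := fun i => inv_pos.mpr (hd i)
  obtain ⟨hτ0, hτg, hτg2, -, -, -⟩ := hR (fun i => (d i)⁻¹) (stx x) h g hdi
    (hA.2.2.2.2.2.1 x hx.plu hx.prim) hhg
  obtain ⟨hσ0, hσt, hσt2, -, -, -⟩ := hR d x s t hd hx.prim hst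
  have hstar : nx (fun i => (d i)⁻¹) (stx x) = nx d x :=
    hA.2.2.2.2.2.2.1 d x hd hp hx.plu
  rw [hstar] at hτg2
  have hxX := hx.hi
  set τ := nv (fun i => (d i)⁻¹) h with hτdef
  have hτ2 : τ ^ 2 ≤ 2 * X := by nlinarith
  have hσ2 : nv d s ^ 2 ≤ 2 * X := by nlinarith
  rcases S.eq_empty_or_nonempty with hSe | ⟨x0, hx0⟩
  · subst hSe
    have := nv_nonneg hd s'
    simp only [Finset.card_empty, Nat.cast_zero]
    positivity
  obtain ⟨hn0, -, t0, ht0⟩ := hS x0 hx0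
  have ha : 0 < nv d s' := (hR d x0 s' t0 hd hn0.prim ht0).1
  have hs0 : s' ≠ 0 := ht0.s0
  set a := nv d s' with hadef
  choose! tt htt using fun x' (hx' : x' ∈ S) => (hS x' hx').2.2
  set M : ℝ := X / a ^ 2 with hMdef
  have hM : 0 < M := by positivity
  set K := Finset.Icc (-⌊M⌋) ⌊M⌋ with hK
  have hKM : ∀ m ∈ K, |(m : ℝ)| ≤ M := by
    intro m hm
    rw [hK, Finset.mem_Icc] at hm
    have h1 : |m| ≤ ⌊M⌋ := abs_le.mpr hm
    have h2 : ((|m| : ℤ) : ℝ) ≤ (⌊M⌋ : ℝ) := by exact_mod_cast h1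
    rw [Int.cast_abs] at h2
    exact h2.trans (Int.floor_le M)
  set F : A4 × ℤ → V4 := fun p => tt p.1 + p.2 • s' with hF
  have hwd : ∀ x' ∈ S, ∀ m : ℤ, wdg s' (tt x' + m • s') = x' := by
    intro x' hx' m
    rw [wdg_add_smul, ← (htt x' hx').wd]
  have hinj : Set.InjOn F (S ×ˢ K : Finset (A4 × ℤ)) := by
    rintro ⟨x1, m1⟩ h1 ⟨x2, m2⟩ h2 he
    simp only [Finset.coe_product, Set.mem_prod, Finset.mem_coe] at h1 h2
    simp only [hF] at he
    have e1 := hwd x1 h1.1 m1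
    have e2 := hwd x2 h2.1 m2
    rw [he, e2] at e1
    subst e1
    have e3 : m1 • s' = m2 • s' := add_left_cancel he
    have e4 : (m1 - m2) • s' = 0 := by rw [sub_smul, e3, sub_self]
    rcases smul_eq_zero.mp e4 with e5 | e5
    · have : m1 = m2 := by omega
      rw [this]
    · exact absurd e5 hs0
  have hcard : ((S ×ˢ K).image F).card = S.card * K.card := by
    rw [Finset.card_image_of_injOn hinj, Finset.card_product]
  have hmem : ∀ v ∈ (S ×ˢ K).image F, (∀ i j k, (D : ℤ) ∣ w3 x v i j k) ∧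
      nv d v ≤ 3 * X / a := by
    intro v hv
    obtain ⟨⟨x', m⟩, hxm, rfl⟩ := Finset.mem_image.mp hv
    rw [Finset.mem_product] at hxm
    obtain ⟨hx', hm⟩ := hxm
    simp only at hx' hm
    have hred := htt x' hx'
    refine ⟨fun i j k => dvd_w3 (hS x' hx').2.1 _ i j k ?_, ?_⟩
    · have e := w3_wdg s' (tt x') m i j k
      rw [← hred.wd] at e
      exact e
    · have h1 := (hR d x' s' (tt x') hd (hS x' hx').1.prim hred).2.2.1
      have h2 := (hS x' hx').1.hi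
      have h3 : nv d (tt x') ≤ 2 * X / a := by
        rw [le_div_iff₀ ha]
        nlinarith
      have h4 := nv_add_smul hd (tt x') s' m
      have h5 : |(m : ℝ)| * nv d s' ≤ M * a := mul_le_mul_of_nonneg_right (hKM m hm) ha.le
      have h6 : M * a = X / a := by
        rw [hMdef]; field_simp
      calc nv d (F (x', m)) ≤ nv d (tt x') + |(m : ℝ)| * nv d s' := h4
        _ ≤ 2 * X / a + X / a := by rw [← h6]; exact add_le_add h3 h5
        _ = 3 * X / a := by ring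
  have hU : 0 ≤ 3 * X / a := by positivity
  have key := (hLat d X R x s t h g D hd hp hR1 hX hx hst hhg hD hXD).1 (3 * X / a) hU _ hmem
  rw [hcard] at key
  push_cast at key
  have hKc : M ≤ (K.card : ℝ) := card_Icc_ge hM.le
  have h1 : (S.card : ℝ) * M ≤ (S.card : ℝ) * (K.card : ℝ) :=
    mul_le_mul_of_nonneg_left hKc (Nat.cast_nonneg _)
  have i1 := ineq1 ha hs' hσ2 hX
  have i2 := ineq2 ha hs' hσ2 hX hR1 hτ0 hτ2
  have p2 : 0 ≤ (1 + R * (3 * X / a) / τ) * (1 + R * (3 * X / a) * τ / X) := by positivity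
  have h2 : (S.card : ℝ) * M ≤ M * (220 * C * (R * X / (a * τ) + R ^ 2 * X / a ^ 2)) := by
    calc (S.card : ℝ) * M ≤ C * (1 + 3 * X / a / nv d s) * (1 + 3 * X / a * nv d s / X) *
          (1 + R * (3 * X / a) / τ) * (1 + R * (3 * X / a) * τ / X) := h1.trans key
      _ = C * ((1 + 3 * X / a / nv d s) * (1 + 3 * X / a * nv d s / X)) *
          ((1 + R * (3 * X / a) / τ) * (1 + R * (3 * X / a) * τ / X)) := by ring
      _ ≤ C * (20 * (X / a ^ 2)) *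
          ((1 + R * (3 * X / a) / τ) * (1 + R * (3 * X / a) * τ / X)) :=
        mul_le_mul_of_nonneg_right (mul_le_mul_of_nonneg_left i1 hC.le) p2
      _ ≤ C * (20 * (X / a ^ 2)) * (11 * (R * X / (a * τ) + R ^ 2 * X / a ^ 2)) :=
        mul_le_mul_of_nonneg_left i2 (by positivity)
      _ = M * (220 * C * (R * X / (a * τ) + R ^ 2 * X / a ^ 2)) := by rw [hMdef]; ring
  rw [mul_comm] at h2
  exact le_of_mul_le_mul_left h2 hM

end Pool.Helper13.R6
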