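import Pool.Agent.Helper67.R6.Fam

set_option autoImplicit false

namespace Pool.Helper67.R6

namespace SVCx

open Classical in
theorem cardA {F : Type} [Field F] (m h : ℕ) (x : Fin 6 → ℕ → F)
    (hx : ∀ i r, ((Finset.range m).filter (fun t => x i t = r)).card ≤ h)
    (j : Fin 6) (g : (Fin 6 → F) → F)
    (hg : ∀ z z' : Fin 6 → F, (∀ i, i ≠ j → z i = z' i) → g z = g z') :
    ((Fintype.piFinset fun _ : Fin 6 => Finset.range m).filter
      (fun t => x j (t j) = g (fun i => x i (t i)))).card ≤ m ^ 5 * h := by
  set T : Finset (Fin 6 → ℕ) := Fintype.piFinset fun i => if i = j then {0} else Finset.range m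
    with hT
  have hTc : T.card = m ^ 5 := by
    have h1 : ∀ i, (if i = j then ({0} : Finset ℕ) else Finset.range m).card =
        if i = j then 1 else m := by
      intro i; split_ifs <;> simp
    have h2 : ∀ j : Fin 6, (Finset.univ.filter (fun i : Fin 6 => ¬ i = j)).card = 5 := by decide
    rw [hT, Fintype.card_piFinset, Finset.prod_congr rfl (fun i _ => h1 i), Finset.prod_ite,
      Finset.prod_const_one, one_mul, Finset.prod_const]
    congr 1
    rw [← h2 j]
  have hmain := Finset.card_le_mul_card_image_of_maps_to
    (s := (Fintype.piFinset fun _ : Fin 6 => Finset.range m).filter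
      (fun t => x j (t j) = g (fun i => x i (t i)))) (t := T)
    (f := fun t => Function.update t j 0) (n := h) ?_ ?_
  · rw [hTc] at hmain
    calc _ ≤ h * m ^ 5 := hmain
      _ = m ^ 5 * h := by ring
  · intro t ht
    rw [Finset.mem_filter, Fintype.mem_piFinset] at ht
    rw [hT, Fintype.mem_piFinset]
    intro i
    by_cases hi : i = j
    · subst hi; simp
    · simp only [Function.update_of_ne hi, if_neg hi]
      exact ht.1 i
  · intro b _
    refine le_trans (Finset.card_le_card_of_injOn (fun a => a j) ?_ ?_)
      (hx j (g (fun i => x i (b i))))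
    · intro a ha
      simp only [Finset.coe_filter, Set.mem_ofPred_eq, Finset.mem_filter,
        Fintype.mem_piFinset] at ha ⊢
      obtain ⟨⟨ha1, ha2⟩, ha3⟩ := ha
      refine ⟨ha1 j, ?_⟩
      rw [ha2]
      apply hg
      intro i hi
      rw [← ha3, Function.update_of_ne hi]
    · intro a ha a' ha' he
      simp only [Finset.coe_filter, Set.mem_ofPred_eq] at ha ha'
      funext i
      by_cases hi : i = j
      · subst hi; exact he
      · have h1 := congrFun (ha.2.trans ha'.2.symm) i
        simpa only [Function.update_of_ne hi] using h1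

open Classical in
theorem cardB {F : Type} [Field F] (m h : ℕ) (x : Fin 6 → ℕ → F)
    (hx : ∀ i r, ((Finset.range m).filter (fun t => x i t = r)).card ≤ h)
    (j k : Fin 6) (hjk : j ≠ k) (g g' : (Fin 6 → F) → F)
    (hg : ∀ z z' : Fin 6 → F, (∀ i, i ≠ j → i ≠ k → z i = z' i) → g z = g z')
    (hg' : ∀ z z' : Fin 6 → F, (∀ i, i ≠ j → i ≠ k → z i = z' i) → g' z = g' z') :
    ((Fintype.piFinset fun _ : Fin 6 => Finset.range m).filter
      (fun t => x j (t j) = g (fun i => x i (t i)) ∧ x k (t k) = g' (fun i => x i (t i)))).card ≤
      m ^ 4 * h ^ 2 := by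
  set T : Finset (Fin 6 → ℕ) :=
    Fintype.piFinset fun i => if i = j ∨ i = k then {0} else Finset.range m with hT
  have hTc : T.card = m ^ 4 := by
    have h1 : ∀ i, (if i = j ∨ i = k then ({0} : Finset ℕ) else Finset.range m).card =
        if i = j ∨ i = k then 1 else m := by
      intro i; split_ifs <;> simp
    have h2 : ∀ j k : Fin 6, j ≠ k →
        (Finset.univ.filter (fun i : Fin 6 => ¬ (i = j ∨ i = k))).card = 4 := by decide
    rw [hT, Fintype.card_piFinset, Finset.prod_congr rfl (fun i _ => h1 i), Finset.prod_ite,
      Finset.prod_const_one, one_mul, Finset.prod_const]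
    congr 1
    rw [← h2 j k hjk]
  have hmain := Finset.card_le_mul_card_image_of_maps_to
    (s := (Fintype.piFinset fun _ : Fin 6 => Finset.range m).filter
      (fun t => x j (t j) = g (fun i => x i (t i)) ∧ x k (t k) = g' (fun i => x i (t i)))) (t := T)
    (f := fun t => Function.update (Function.update t j 0) k 0) (n := h * h) ?_ ?_
  · rw [hTc] at hmain
    calc _ ≤ h * h * m ^ 4 := hmain
      _ = m ^ 4 * h ^ 2 := by ring
  · intro t ht
    rw [Finset.mem_filter, Fintype.mem_piFinset] at ht
    rw [hT, Fintype.mem_piFinset]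
    intro i
    by_cases hk : i = k
    · subst hk; simp
    · by_cases hi : i = j
      · subst hi; simp [Function.update_of_ne hk]
      · simp only [Function.update_of_ne hk, Function.update_of_ne hi, hi, hk, or_self, if_false]
        exact ht.1 i
  · intro b _
    refine le_trans (Finset.card_le_card_of_injOn (fun a => (a j, a k))
      (t := (Finset.range m).filter (fun t => x j t = g (fun i => x i (b i))) ×ˢ
        (Finset.range m).filter (fun t => x k t = g' (fun i => x i (b i)))) ?_ ?_) ?_
    · intro a ha
      simp only [Finset.coe_filter, Set.mem_ofPred_eq, Finset.mem_filter,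
        Fintype.mem_piFinset] at ha
      obtain ⟨⟨ha1, ha2, ha4⟩, ha3⟩ := ha
      have hab : ∀ i, i ≠ j → i ≠ k → a i = b i := by
        intro i hi hk
        rw [← ha3, Function.update_of_ne hk, Function.update_of_ne hi]
      simp only [Finset.coe_product, Set.mem_prod, Finset.coe_filter, Set.mem_ofPred_eq]
      refine ⟨⟨ha1 j, ?_⟩, ⟨ha1 k, ?_⟩⟩
      · rw [ha2]
        apply hg
        intro i hi hk
        rw [hab i hi hk]
      · rw [ha4]
        apply hg'
        intro i hi hk
        rw [hab i hi hk]
    · intro a ha a' ha' he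
      simp only [Finset.coe_filter, Set.mem_ofPred_eq] at ha ha'
      simp only [Prod.mk.injEq] at he
      funext i
      by_cases hk : i = k
      · subst hk; exact he.2
      · by_cases hi : i = j
        · subst hi; exact he.1
        · have h1 := congrFun (ha.2.trans ha'.2.symm) i
          simpa only [Function.update_of_ne hk, Function.update_of_ne hi] using h1
    · rw [Finset.card_product]
      exact Nat.mul_le_mul (hx j _) (hx k _)

open Classical in
theorem cardC {F : Type} [Field F] (m h : ℕ) (x : Fin 6 → ℕ → F)
    (hx : ∀ i r, ((Finset.range m).filter (fun t => x i t = r)).card ≤ h)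
    (α β γ : F) (hα : α ≠ 0) :
    ((Fintype.piFinset fun _ : Fin 6 => Finset.range m).filter
      (fun t => α * (x 1 (t 1) * x 5 (t 5) - x 2 (t 2) * x 4 (t 4)) +
        β * (x 0 (t 0) * x 5 (t 5) - x 2 (t 2) * x 3 (t 3)) +
        γ * (x 0 (t 0) * x 4 (t 4) - x 1 (t 1) * x 3 (t 3)) = 0)).card ≤ 2 * (m ^ 5 * h) := by
  have h1 := cardA m h x hx 5 (fun z => (α * (z 2 * z 4) + β * (z 2 * z 3) -
    γ * (z 0 * z 4 - z 1 * z 3)) / (α * z 1 + β * z 0)) (by
      intro z z' hz
      simp only [hz 0 (by decide), hz 1 (by decide), hz 2 (by decide), hz 3 (by decide),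
        hz 4 (by decide)])
  have h2 := cardA m h x hx 1 (fun z => -(β * z 0) / α) (by
      intro z z' hz
      simp only [hz 0 (by decide)])
  refine le_trans (Finset.card_le_card (t := _ ∪ _) ?_)
    (le_trans (Finset.card_union_le _ _) ((Nat.add_le_add h1 h2).trans (by rw [two_mul])))
  intro t ht
  rw [Finset.mem_filter] at ht
  rw [Finset.mem_union, Finset.mem_filter, Finset.mem_filter]
  obtain ⟨ht1, ht2⟩ := ht
  by_cases hc : α * x 1 (t 1) + β * x 0 (t 0) = 0
  · right
    refine ⟨ht1, ?_⟩
    rw [eq_div_iff hα]
    linear_combination hc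
  · left
    refine ⟨ht1, ?_⟩
    rw [eq_div_iff hc]
    linear_combination ht2

end SVCx

open SVCx in
theorem st_SVC : ST_SVC := by
  classical
  intro F _ h30 m h x hhm hx
  have h2 : (2 : F) ≠ 0 := fun e => h30 (by
    have : (30 : F) = 2 * 15 := by norm_num
    rw [this, e, zero_mul])
  have h5 : (5 : F) ≠ 0 := fun e => h30 (by
    have : (30 : F) = 5 * 6 := by norm_num
    rw [this, e, zero_mul])
  have h4 : (4 : F) ≠ 0 := by
    have : (4 : F) = 2 * 2 := by norm_num
    rw [this]; exact mul_ne_zero h2 h2
  have h20 : (20 : F) ≠ 0 := by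
    have : (20 : F) = 4 * 5 := by norm_num
    rw [this]; exact mul_ne_zero h4 h5
  have hV : ∀ t : Fin 6 → ℕ, V (fun i => x i (t i)) =
      ![4 * (x 1 (t 1) * x 5 (t 5) - x 2 (t 2) * x 4 (t 4)),
        5 * (x 0 (t 0) * x 5 (t 5) - x 2 (t 2) * x 3 (t 3)),
        5 * (x 0 (t 0) * x 4 (t 4) - x 1 (t 1) * x 3 (t 3))] := fun t => rfl
  constructor
  · set c : Bool × Bool × Bool → F × F := fun p =>
      match p with
      | (true, e, d) => (bif e then 20 else -20, bif d then 5 else -5)
      | (false, e, d) => (bif e then 80 else -80, bif d then 45 else -45) with hc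
    have hb := Finset.card_biUnion_le_card_mul (Finset.univ : Finset (Bool × Bool × Bool))
      (fun p => (Fintype.piFinset fun _ : Fin 6 => Finset.range m).filter
        (fun t => 20 * (x 1 (t 1) * x 5 (t 5) - x 2 (t 2) * x 4 (t 4)) +
        (c p).1 * (x 0 (t 0) * x 5 (t 5) - x 2 (t 2) * x 3 (t 3)) +
        (c p).2 * (x 0 (t 0) * x 4 (t 4) - x 1 (t 1) * x 3 (t 3)) = 0)) (2 * (m ^ 5 * h))
      (fun p _ => cardC m h x hx 20 _ _ h20)
    have hu : (Finset.univ : Finset (Bool × Bool × Bool)).card = 8 := by decide
    rw [hu] at hb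
    refine le_trans (Finset.card_le_card ?_) (hb.trans (by ring_nf; rfl))
    intro t ht
    rw [Finset.mem_filter] at ht
    obtain ⟨ht1, e, d, he, hd, hor⟩ := ht
    rw [hV] at hor
    simp only [Matrix.cons_val_zero, Matrix.cons_val_one, Matrix.cons_val] at hor
    simp only [Finset.mem_biUnion, Finset.mem_univ, true_and, Finset.mem_filter]
    rcases hor with hor | hor
    · rcases he with rfl | rfl <;> rcases hd with rfl | rfl
      · exact ⟨(true, true, true), ht1, by simp only [hc, cond_true]; linear_combination hor⟩
      · exact ⟨(true, true, false), ht1, by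
          simp only [hc, cond_true, cond_false]; linear_combination hor⟩
      · exact ⟨(true, false, true), ht1, by
          simp only [hc, cond_true, cond_false]; linear_combination hor⟩
      · exact ⟨(true, false, false), ht1, by simp only [hc, cond_false]; linear_combination hor⟩
    · rcases he with rfl | rfl <;> rcases hd with rfl | rfl
      · exact ⟨(false, true, true), ht1, by simp only [hc, cond_true]; linear_combination hor⟩
      · exact ⟨(false, true, false), ht1, by
          simp only [hc, cond_true, cond_false]; linear_combination hor⟩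
      · exact ⟨(false, false, true), ht1, by
          simp only [hc, cond_true, cond_false]; linear_combination hor⟩
      · exact ⟨(false, false, false), ht1, by simp only [hc, cond_false]; linear_combination hor⟩
  · have b1 := cardB m h x hx 5 4 (by decide) (fun z => z 2 * z 3 / z 0)
      (fun z => z 1 * z 3 / z 0)
      (by intro z z' hz
          simp only [hz 0 (by decide) (by decide), hz 2 (by decide) (by decide),
            hz 3 (by decide) (by decide)])
      (by intro z z' hz
          simp only [hz 0 (by decide) (by decide), hz 1 (by decide) (by decide),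
            hz 3 (by decide) (by decide)])
    have b2 := cardB m h x hx 5 3 (by decide) (fun z => z 2 * z 4 / z 1)
      (fun z => z 0 * z 4 / z 1)
      (by intro z z' hz
          simp only [hz 1 (by decide) (by decide), hz 2 (by decide) (by decide),
            hz 4 (by decide) (by decide)])
      (by intro z z' hz
          simp only [hz 0 (by decide) (by decide), hz 1 (by decide) (by decide),
            hz 4 (by decide) (by decide)])
    have b4 := cardB m h x hx 0 1 (by decide) (fun _ => 0) (fun _ => 0)
      (by intro z z' _; rfl) (by intro z z' _; rfl)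
    refine le_trans (Finset.card_le_card (t := _ ∪ (_ ∪ _)) ?_)
      (le_trans (Finset.card_union_le _ _) (le_trans (Nat.add_le_add b1
        (le_trans (Finset.card_union_le _ _) (Nat.add_le_add b2 b4)))
          (by nlinarith [Nat.zero_le (m ^ 4 * h ^ 2)])))
    intro t ht
    rw [Finset.mem_filter] at ht
    obtain ⟨ht1, hv⟩ := ht
    rw [hV] at hv
    have v0 := congrFun hv 0
    have v1 := congrFun hv 1
    have v2 := congrFun hv 2
    simp only [Matrix.cons_val_zero, Matrix.cons_val_one, Matrix.cons_val,
      Pi.zero_apply] at v0 v1 v2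
    have w0 := (mul_eq_zero.mp v0).resolve_left h4
    have w1 := (mul_eq_zero.mp v1).resolve_left h5
    have w2 := (mul_eq_zero.mp v2).resolve_left h5
    simp only [Finset.mem_union, Finset.mem_filter]
    by_cases z0 : x 0 (t 0) = 0
    · by_cases z1 : x 1 (t 1) = 0
      · exact Or.inr (Or.inr ⟨ht1, z0, z1⟩)
      · refine Or.inr (Or.inl ⟨ht1, ?_, ?_⟩)
        · rw [eq_div_iff z1]; linear_combination w0
        · rw [eq_div_iff z1]; linear_combination -w2
    · refine Or.inl ⟨ht1, ?_, ?_⟩
      · rw [eq_div_iff z0]; linear_combination w1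
      · rw [eq_div_iff z0]; linear_combination w2

end Pool.Helper67.R6
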